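import Pool.Agent.KK.StmtsB2
import Pool.Agent.Helper70_KK.MIN
import Pool.Agent.Helper70_KK.WGR

/-! MP_747bc0_co, block B, row CLI: the explicit classes are indecomposable. -/

set_option autoImplicit false

namespace Pool.Agent.KK.B.H91

open Function
open scoped Classical

theorem dens_letter_ge {V : Type} [Fintype V] [Nonempty V] {X : V → Prop}
    (hX : |dens X - 1 / 2| ≤ 1 / 8) (c : Bool) : 3 / 8 ≤ dens (fun v => (X v ↔ c = true)) := by
  rw [abs_le] at hX
  cases c
  · have h2 : dens (fun v => (X v ↔ false = true)) = dens (fun v => ¬ X v) :=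
      dens_congr fun v => by simp
    rw [h2, dens_not]
    linarith [hX.2]
  · have h2 : dens (fun v => (X v ↔ true = true)) = dens X := dens_congr fun v => by simp
    rw [h2]
    linarith [hX.1]

/-- the words of the run -/
def Wds {k : ℕ} (a b : ℕ) (W : Fin k → Bool) : Prop :=
  a ≤ wt W ∧ wt W ≤ b ∧ (a = b → ∀ l : Fin k, (W l = true ↔ l.val < a))

theorem neg_one_eq_last {d : ℕ} : (-1 : Fin (d + 2)) = Fin.last (d + 1) := by
  rw [neg_eq_iff_add_eq_zero]
  ext
  simp only [Fin.val_add, Fin.val_one, Fin.val_last, Fin.val_zero]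
  have h : 1 + (d + 1) = d + 2 := by omega
  rw [h, Nat.mod_self]

theorem castSucc_ne_neg_one {d : ℕ} (i : Fin (d + 2)) (j : Fin (d + 1)) :
    i + 1 + j.castSucc ≠ i := by
  intro h
  have h2 : (1 + j.castSucc : Fin (d + 2)) = 0 := by
    have h3 : i + (1 + j.castSucc) = i + 0 := by
      rw [← add_assoc, h, add_zero]
    exact add_left_cancel h3
  have h3 : (-1 : Fin (d + 2)) = j.castSucc := neg_eq_iff_add_eq_zero.2 h2
  rw [neg_one_eq_last] at h3
  exact (Fin.castSucc_lt_last j).ne h3.symm

/-- type of the state = number of letters off the label `i` -/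
theorem typ_stOf {V : Type} [Fintype V] {d : ℕ} (X : V → Prop) (i : Fin (d + 2))
    (x : Fin (d + 2) → V) :
    typ X (stOf i x).1 = (Finset.univ.filter (fun l : Fin (d + 2) => l ≠ i ∧ X (x l))).card := by
  unfold typ stOf
  refine Finset.card_bij (fun j _ => i + 1 + j.castSucc) ?_ ?_ ?_
  · intro j hj
    rw [Finset.mem_filter] at hj ⊢
    exact ⟨Finset.mem_univ _, castSucc_ne_neg_one i j, hj.2⟩
  · intro j _ j' _ h
    have h1 := add_left_cancel h
    exact Fin.castSucc_injective _ h1
  · intro l hl
    rw [Finset.mem_filter] at hl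
    have h4 : (-1 : Fin (d + 2)) = Fin.last (d + 1) := neg_one_eq_last
    have h5 : l - (i + 1) ≠ Fin.last (d + 1) := by
      rw [← h4]
      intro h
      apply hl.2.1
      have : l = -1 + (i + 1) := by rw [← h]; abel
      rw [this]
      abel
    obtain ⟨j, hj⟩ := Fin.exists_castSucc_eq.2 h5
    refine ⟨j, ?_, ?_⟩
    · rw [Finset.mem_filter]
      refine ⟨Finset.mem_univ _, ?_⟩
      show X (x (i + 1 + j.castSucc))
      rw [hj]
      have : i + 1 + (l - (i + 1)) = l := by abel
      rw [this]
      exact hl.2.2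
    · show i + 1 + j.castSucc = l
      rw [hj]
      abel

theorem exists_lab {d : ℕ} (i l : Fin (d + 2)) (h : l ≠ i) :
    ∃ j : Fin (d + 1), i + 1 + j.castSucc = l := by
  have h4 : (-1 : Fin (d + 2)) = Fin.last (d + 1) := neg_one_eq_last
  have h5 : l - (i + 1) ≠ Fin.last (d + 1) := by
    rw [← h4]
    intro h'
    apply h
    have : l = -1 + (i + 1) := by rw [← h']; abel
    rw [this]
    abel
  obtain ⟨j, hj⟩ := Fin.exists_castSucc_eq.2 h5
  refine ⟨j, ?_⟩
  rw [hj]
  abel

theorem xc_eq_typ {V : Type} [Fintype V] [DecidableEq V] (X : Finset V) {m : ℕ} (f : Fin m → V) :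
    xc X f = typ (fun v => v ∈ X) f := by
  unfold xc typ
  congr 1
  ext i
  simp

theorem lab_val {V : Type} {d : ℕ} (i : Fin (d + 2)) (x : Fin (d + 2) → V) (j : Fin (d + 1)) :
    ((stOf i x).2 + ((j : ℕ) : ZMod (d + 2))).val = (i + 1 + j.castSucc : Fin (d + 2)).val := by
  have h : ((j : ℕ) : ZMod (d + 2)) = (j.castSucc : Fin (d + 2)) := by
    apply ZMod.val_injective
    rw [ZMod.val_natCast, Nat.mod_eq_of_lt (by omega)]
    rfl
  rw [h]
  rfl

/-- description of the states of a class -/
theorem mem_cls_stOf {V : Type} [Fintype V] [DecidableEq V] {d : ℕ} (X : Finset V) (a b : ℕ)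
    (i : Fin (d + 2)) (x : Fin (d + 2) → V) (h : stOf i x ∈ cls X d a b) :
    (a < b → a ≤ typ (fun v => v ∈ X) (stOf i x).1 + 1 ∧ typ (fun v => v ∈ X) (stOf i x).1 ≤ b) ∧
    (a = b → ∀ j : Fin (d + 1), (x (i + 1 + j.castSucc) ∈ X ↔ (i + 1 + j.castSucc).val < a)) := by
  unfold cls at h
  by_cases hab : a = b
  · rw [if_pos hab] at h
    refine ⟨fun h' => absurd hab h'.ne, fun _ j => ?_⟩
    have h1 := h j
    rw [lab_val] at h1
    exact h1
  · rw [if_neg hab] at h
    refine ⟨fun _ => ?_, fun h' => absurd h' hab⟩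
    obtain ⟨h1, h2⟩ := h
    rw [xc_eq_typ] at h1 h2
    exact ⟨h1, h2⟩

/-- every state of the class has a word in `Wds a b` off the label `i` -/
theorem exists_word {V : Type} [Fintype V] [DecidableEq V] {d : ℕ} (X : Finset V) (a b : ℕ)
    (hab : a ≤ b) (hb : b ≤ d + 2) (i : Fin (d + 2)) (x : Fin (d + 2) → V)
    (h : sys (cls X d a b) i x) :
    ∃ W : Fin (d + 2) → Bool, Wds a b W ∧ ∀ l, l ≠ i → (x l ∈ X ↔ W l = true) := by
  obtain ⟨h12, h3⟩ := mem_cls_stOf X a b i x h
  obtain ⟨s, hs0⟩ : ∃ s, s = typ (fun v => v ∈ X) (stOf i x).1 := ⟨_, rfl⟩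
  rw [← hs0] at h12
  have hs : s = (Finset.univ.filter (fun l : Fin (d + 2) => l ≠ i ∧ x l ∈ X)).card := by
    rw [hs0, typ_stOf]
    congr 1
    ext l
    simp
  by_cases hab' : a = b
  · refine ⟨fun l => decide (l.val < a), ⟨?_, ?_, fun _ l => by simp⟩, ?_⟩
    · have : wt (fun l : Fin (d + 2) => decide (l.val < a)) = a := by
        unfold wt
        have h5 : (Finset.univ.filter (fun l : Fin (d + 2) => decide (l.val < a) = true)) =
            Finset.univ.filter (fun l : Fin (d + 2) => l.val < a) := by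
          ext l; simp
        rw [h5, Fin.card_filter_val_lt]
        omega
      omega
    · have : wt (fun l : Fin (d + 2) => decide (l.val < a)) = a := by
        unfold wt
        have h5 : (Finset.univ.filter (fun l : Fin (d + 2) => decide (l.val < a) = true)) =
            Finset.univ.filter (fun l : Fin (d + 2) => l.val < a) := by
          ext l; simp
        rw [h5, Fin.card_filter_val_lt]
        omega
      omega
    · intro l hl
      obtain ⟨j, hj⟩ := exists_lab i l hl
      have h6 := h3 hab' j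
      rw [hj] at h6
      simpa using h6
  · have hlt : a < b := lt_of_le_of_ne hab hab'
    obtain ⟨h1, h2⟩ := h12 hlt
    have hc : ∀ c : Bool, wt (update (fun l => decide (x l ∈ X)) i c) = s + c.toNat := by
      intro c
      unfold wt
      cases c
      · simp only [Bool.toNat_false, add_zero, hs]
        congr 1
        ext l
        rw [Finset.mem_filter, Finset.mem_filter]
        by_cases hl : l = i
        · subst hl; simp
        · rw [update_of_ne hl]; simp [hl]
      · have h5 : (Finset.univ.filter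
            (fun l => update (fun l => decide (x l ∈ X)) i true l = true)) =
            insert i (Finset.univ.filter (fun l : Fin (d + 2) => l ≠ i ∧ x l ∈ X)) := by
          ext l
          rw [Finset.mem_filter, Finset.mem_insert, Finset.mem_filter]
          by_cases hl : l = i
          · subst hl; simp
          · rw [update_of_ne hl]; simp [hl]
        rw [h5, Finset.card_insert_of_notMem (by simp)]
        simp [hs]
    by_cases has : a ≤ s
    · refine ⟨update (fun l => decide (x l ∈ X)) i false, ⟨?_, ?_, fun h => absurd h hab'⟩, ?_⟩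
      · rw [hc]; simpa using has
      · rw [hc]; simpa using h2
      · intro l hl
        rw [update_of_ne hl]; simp
    · refine ⟨update (fun l => decide (x l ∈ X)) i true, ⟨?_, ?_, fun h => absurd h hab'⟩, ?_⟩
      · rw [hc]
        simp only [Bool.toNat_true]
        exact h1
      · rw [hc]
        simp only [Bool.toNat_true]
        omega
      · intro l hl
        rw [update_of_ne hl]; simp

/-- a set of states inside the class with few tuples on every word of the run is small -/
theorem small_of_words {V : Type} [Fintype V] [DecidableEq V] [Nonempty V] {d : ℕ} {X : Finset V}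
    (hX : |dens (fun v => v ∈ X) - 1 / 2| ≤ 1 / 8) {a b : ℕ} (hab : a ≤ b) (hb : b ≤ d + 2) {b₀ : ℝ}
    (hb₀ : 0 ≤ b₀) (i : Fin (d + 2)) (P : (Fin (d + 2) → V) → Prop)
    (hP : ∀ x v, P (update x i v) ↔ P x) (hPU : ∀ x, P x → sys (cls X d a b) i x)
    (hW : ∀ W, Wds a b W → dens (fun x => P x ∧ wd (fun v => v ∈ X) W x) ≤ b₀) :
    dens P ≤ 2 ^ (d + 2) * (3 * b₀) := by
  have h1 : dens P ≤ dens (fun x => ∃ W : Fin (d + 2) → Bool,
      (Wds a b W ∧ P x ∧ ∀ l, l ≠ i → (x l ∈ X ↔ W l = true))) := by
    apply dens_mono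
    intro x hx
    obtain ⟨W, hW1, hW2⟩ := exists_word X a b hab hb i x (hPU x hx)
    exact ⟨W, hW1, hx, hW2⟩
  refine h1.trans ((dens_exists_le _).trans ?_)
  have h2 : ∀ W : Fin (d + 2) → Bool, dens (fun x : Fin (d + 2) → V =>
      (Wds a b W ∧ P x ∧ ∀ l, l ≠ i → (x l ∈ X ↔ W l = true))) ≤ 3 * b₀ := by
    intro W
    by_cases hWW : Wds a b W
    · have h3 := hW W hWW
      rw [H70.dens_wd (fun v => v ∈ X) i W P hP] at h3
      have h4 := dens_letter_ge hX (W i)
      have h5 : dens (fun x : Fin (d + 2) → V =>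
          (Wds a b W ∧ P x ∧ ∀ l, l ≠ i → (x l ∈ X ↔ W l = true))) ≤
          dens (fun x : Fin (d + 2) → V => P x ∧ ∀ l, l ≠ i → (x l ∈ X ↔ W l = true)) :=
        dens_mono fun x hx => hx.2
      have h6 := dens_nonneg
        (fun x : Fin (d + 2) → V => P x ∧ ∀ l, l ≠ i → (x l ∈ X ↔ W l = true))
      nlinarith
    · have h3 : dens (fun x : Fin (d + 2) → V =>
          (Wds a b W ∧ P x ∧ ∀ l, l ≠ i → (x l ∈ X ↔ W l = true))) = 0 := by
        rw [← dens_false (α := Fin (d + 2) → V)]
        exact dens_congr fun x => ⟨fun h => hWW h.1, fun h => h.elim⟩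
      rw [h3]
      positivity
  refine (Finset.sum_le_sum fun W _ => h2 W).trans ?_
  rw [Finset.sum_const, nsmul_eq_mul, Finset.card_univ, Fintype.card_fun, Fintype.card_bool,
    Fintype.card_fin]
  push_cast
  exact le_rfl

theorem cli (hA : AugStmt) (hCv : CnvStmt) (hCc : CncStmt) : CliStmt := by
  intro d V _ _ _ H X F a b h b₀ β ε ε1 hU hDir hX hab hbk hpres hb₀ hε hβ hh hUU hdet D hDU
  by_cases hst : ε * (Fintype.card V : ℝ) ^ (d + 2) ≤ stp H D (cls X d a b \ D)
  · exact Or.inl hst
  right
  rw [not_le] at hst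
  have hn : (0 : ℝ) < (Fintype.card V : ℝ) := by exact_mod_cast Fintype.card_pos
  -- `sys D` is closed
  have h1 := hCc d V H (cls X d a b) hU D hDU
  have h2 : dens (fun e => LE H e ∧ ¬ Mono (sys D) e) ≤ ε + ε1 := by
    have hpos : (0 : ℝ) < (Fintype.card V : ℝ) ^ (d + 2) := by positivity
    have : dens (fun e => LE H e ∧ ¬ Mono (sys D) e) * (Fintype.card V : ℝ) ^ (d + 2) ≤
        (ε + ε1) * (Fintype.card V : ℝ) ^ (d + 2) := by
      rw [add_mul]
      linarith
    exact le_of_mul_le_mul_right this hpos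
  have hcl : Closed (augE H) h (sys D) := by
    unfold Closed
    refine ((hA d V H hU hDir).2.2 (fun e => ¬ Mono (sys D) e)).trans ?_
    linarith
  have hind : Indep (sys D) := ((hCv d V H hU).1 D).1
  obtain ⟨hwd, hmaj⟩ := hdet (sys D) hind hcl
  have hX' := hX
  rw [abs_le] at hX'
  have hX0 : 0 < dens (fun v => v ∈ X) := by linarith [hX'.1]
  have hX1 : dens (fun v => v ∈ X) < 1 := by linarith [hX'.2]
  -- the majority value is constant on the words of the run
  have hword : ∀ W : Fin (d + 2) → Bool, Wds a b W → ∀ W' : Fin (d + 2) → Bool, Wds a b W' →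
      ∀ i l, (maj (sys D) (fun v => v ∈ X) i W ↔ maj (sys D) (fun v => v ∈ X) l W') := by
    intro W hW W' hW' i l
    by_cases hab' : a = b
    · have hWW : W = W' := by
        funext m
        have h3 := hW.2.2 hab' m
        have h4 := hW'.2.2 hab' m
        rw [Bool.eq_iff_iff, h3, h4]
      subst hWW
      apply hmaj
      apply hpres _ hW.1
      exact hW.2.1
    · have hlt : a < b := lt_of_le_of_ne hab hab'
      have hwgr := (H70.wgr (d + 2) (fun i W => maj (sys D) (fun v => v ∈ X) i W) (fun t => t ∈ F)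
        (fun i W b => H70.minT (d + 2) V (sys D) (fun v => v ∈ X) i W b hind hX0 hX1)
        (fun W hW => hmaj W hW)).1
      exact hwgr a b hlt hpres W W' hW.1 hW.2.1 hW'.1 hW'.2.1 i l
  have hcount : ∀ U : Set (Sta V d), (∀ i, dens (sys U i) ≤ 2 ^ (d + 2) * (3 * b₀)) →
      (U.ncard : ℝ) ≤ β * (Fintype.card V : ℝ) ^ (d + 1) := by
    intro U hU'
    rw [((hCv d V H hU).1 U).2]
    apply mul_le_mul_of_nonneg_right _ (by positivity)
    refine (Finset.sum_le_sum fun i _ => hU' i).trans ?_
    rw [Finset.sum_const, nsmul_eq_mul, Finset.card_univ, Fintype.card_fin]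
    push_cast
    linarith
  by_cases hex : ∃ (i : Fin (d + 2)) (W : Fin (d + 2) → Bool), Wds a b W ∧ maj (sys D) (fun v => v ∈ X) i W
  · -- majority value true: `U \ D` is small
    right
    obtain ⟨i0, W0, hW0, hm0⟩ := hex
    apply hcount
    intro i
    apply small_of_words hX hab hbk hb₀ i (sys (cls X d a b \ D) i)
    · intro x v
      exact ((hCv d V H hU).1 _).1 i x v
    · intro x hx
      exact hx.1
    · intro W hW
      have h3 : maj (sys D) (fun v => v ∈ X) i W := (hword W0 hW0 W hW i0 i).1 hm0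
      have h4 : dens (fun x => ¬ sys D i x ∧ wd (fun v => v ∈ X) W x) ≤ b₀ := by
        rcases hwd i W with h5 | h5
        · exact h3.trans h5
        · exact h5
      refine (dens_mono fun x hx => ?_).trans h4
      exact ⟨hx.1.2, hx.2⟩
  · -- majority value false: `D` is small
    left
    apply hcount
    intro i
    apply small_of_words hX hab hbk hb₀ i (sys D i)
    · intro x v
      exact hind i x v
    · intro x hx
      exact hDU hx
    · intro W hW
      have h3 : ¬ maj (sys D) (fun v => v ∈ X) i W := fun h => hex ⟨i, W, hW, h⟩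
      unfold maj at h3
      rw [not_le] at h3
      rcases hwd i W with h5 | h5
      · exact h5
      · exact h3.le.trans h5

end Pool.Agent.KK.B.H91
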