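import Pool.Agent.KK.StmtsC

/-! Squad KK, row COA (helper91): two new blocks from one old block. -/

set_option autoImplicit false

open scoped BigOperators

namespace Pool.Agent.KK.H91

open Function

theorem exists_perm {n : ℕ} {V : Type} (g h : Fin n → V) (hh : Injective h)
    (hr : ∀ j, ∃ i, g i = h j) : ∃ π : Equiv.Perm (Fin n), g ∘ π = h := by
  choose p hp using hr
  have hinj : Injective p := fun a b hab => hh (by rw [← hp a, ← hp b, hab])
  exact ⟨Equiv.ofBijective p (Finite.injective_iff_bijective.1 hinj), funext hp⟩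

theorem mem_gn {V : Type} [Fintype V] [DecidableEq V] {q : ℕ} (H : Finset (Finset V))
    (k : ℕ) (T : Fin q → Set (List V)) (f : Fin (k - 1) → V) (v : V) :
    v ∈ gn H k T f ↔ OrdIn H k T (insert v (Finset.univ.image f)) := by
  classical
  unfold gn
  simp

theorem ordIn_perm {V : Type} [Fintype V] [DecidableEq V] {q r : ℕ} (H : Finset (Finset V))
    (T : Fin q → Set (List V)) (f : Fin r → V) (v : V)
    (h : OrdIn H (r + 1) T (insert v (Finset.univ.image f))) :
    ∃ (c : Fin q) (π : Equiv.Perm (Fin (r + 1))),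
      EdgeIn H (r + 1) (T c) (List.ofFn ((Fin.snoc f v : Fin (r + 1) → V) ∘ π)) := by
  obtain ⟨c, l, hl, hE⟩ := h
  have hlen : l.length = r + 1 := hE.2.1
  have hnd : l.Nodup := hE.1
  let h : Fin (r + 1) → V := fun j => l.get (Fin.cast hlen.symm j)
  have hl2 : List.ofFn h = l := by
    apply List.ext_get
    · simp [hlen]
    · intro n h1 h2
      rw [List.get_ofFn]
      rfl
  have hh : Injective h := by
    intro a b hab
    have := hnd.injective_get hab
    simpa using this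
  have hr : ∀ j, ∃ i, (Fin.snoc f v : Fin (r + 1) → V) i = h j := by
    intro j
    have hm : h j ∈ l.toFinset := by
      rw [List.mem_toFinset]
      exact List.get_mem _ _
    rw [hl, Finset.mem_insert, Finset.mem_image] at hm
    rcases hm with hm | ⟨i, -, hi⟩
    · exact ⟨Fin.last r, by rw [Fin.snoc_last, hm]⟩
    · exact ⟨Fin.castSucc i, by rw [Fin.snoc_castSucc, hi]⟩
  obtain ⟨π, hπ⟩ := exists_perm _ h hh hr
  exact ⟨c, π, by rw [hπ, hl2]; exact hE⟩

/-- Choice of a set `P` with constant data. -/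
theorem exists_P {V : Type} [Fintype V] [DecidableEq V] {q r s : ℕ} (H : Finset (Finset V))
    (T : Fin q → Set (List V)) (f : Fin r → V) (S : Finset V)
    (hS : ∀ v ∈ S, OrdIn H (r + 1) T (insert v (Finset.univ.image f))) (hq : 0 < q)
    (hc : s * q * (r + 1).factorial ≤ S.card) :
    ∃ (P : Finset V) (c : Fin q) (π : Equiv.Perm (Fin (r + 1))), P ⊆ S ∧ P.card = s ∧
      ∀ v ∈ P, EdgeIn H (r + 1) (T c) (List.ofFn ((Fin.snoc f v : Fin (r + 1) → V) ∘ π)) := by
  classical
  have : Nonempty (Fin q) := ⟨⟨0, hq⟩⟩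
  have h1 : ∀ v : V, ∃ d : Fin q × Equiv.Perm (Fin (r + 1)), v ∈ S →
      EdgeIn H (r + 1) (T d.1) (List.ofFn ((Fin.snoc f v : Fin (r + 1) → V) ∘ d.2)) := by
    intro v
    by_cases hv : v ∈ S
    · obtain ⟨c, π, h⟩ := ordIn_perm H T f v (hS v hv)
      exact ⟨(c, π), fun _ => h⟩
    · exact ⟨Classical.arbitrary _, fun h => absurd h hv⟩
  choose φ hφ using h1
  have hcard : (Finset.univ : Finset (Fin q × Equiv.Perm (Fin (r + 1)))).card * s ≤ S.card := by
    rw [Finset.card_univ, Fintype.card_prod, Fintype.card_fin, Fintype.card_perm, Fintype.card_fin]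
    calc q * (r + 1).factorial * s = s * q * (r + 1).factorial := by ring
      _ ≤ S.card := hc
  obtain ⟨d, -, hd⟩ := Finset.exists_le_card_fiber_of_mul_le_card_of_maps_to
    (f := φ) (fun v _ => Finset.mem_univ _) Finset.univ_nonempty hcard
  obtain ⟨P, hP, hPc⟩ := Finset.exists_subset_card_eq hd
  refine ⟨P, d.1, d.2, fun v hv => (Finset.mem_filter.1 (hP hv)).1, hPc, fun v hv => ?_⟩
  obtain ⟨hv1, hv2⟩ := Finset.mem_filter.1 (hP hv)
  have := hφ v hv1
  rw [hv2] at this
  exact this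

/-- Construction of a block from sets `A l`, `P`. -/
theorem block_of {V : Type} [Fintype V] [DecidableEq V] {q r s : ℕ} (H : Finset (Finset V))
    (T : Fin q → Set (List V)) (A : Fin r → Finset V) (P : Finset V) (c : Fin q)
    (π : Equiv.Perm (Fin (r + 1))) (hA : ∀ l, (A l).card = s) (hP : P.card = s)
    (hd : ∀ i j, i ≠ j → Disjoint (A i) (A j)) (hdP : ∀ l, Disjoint (A l) P)
    (hE : ∀ x : Fin r → V, (∀ l, x l ∈ A l) → ∀ v ∈ P,
      EdgeIn H (r + 1) (T c) (List.ofFn ((Fin.snoc x v : Fin (r + 1) → V) ∘ π))) :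
    ∃ C : Fin (r + 1) → Finset V, Block H (r + 1) T s C ∧
      Finset.univ.biUnion C = P ∪ Finset.univ.biUnion A := by
  classical
  let G : Fin (r + 1) → Finset V := Fin.snoc (α := fun _ => Finset V) A P
  have hG1 : ∀ l : Fin r, G l.castSucc = A l := fun l => Fin.snoc_castSucc (α := fun _ => Finset V) _ _ _
  have hG2 : G (Fin.last r) = P := Fin.snoc_last (α := fun _ => Finset V) _ _
  have hGd : ∀ a b, a ≠ b → Disjoint (G a) (G b) := by
    intro a b
    refine Fin.lastCases ?_ (fun a => ?_) a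
    · refine Fin.lastCases ?_ (fun b => ?_) b
      · intro h; exact absurd rfl h
      · intro _
        rw [hG1, hG2]
        exact (hdP b).symm
    · refine Fin.lastCases ?_ (fun b => ?_) b
      · intro _
        rw [hG1, hG2]
        exact hdP a
      · intro h
        rw [hG1, hG1]
        exact hd a b fun h' => h (by rw [h'])
  have hGc : ∀ a, (G a).card = s := by
    intro a
    refine Fin.lastCases ?_ (fun a => ?_) a
    · rw [hG2]; exact hP
    · rw [hG1]; exact hA a
  refine ⟨fun j => G (π j), ⟨fun j => hGc _, fun i j hij => hGd _ _ fun h => hij (π.injective h),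
    c, fun y hy => ?_⟩, ?_⟩
  · let g : Fin (r + 1) → V := fun m => y (π.symm m)
    have hg : ∀ m, g m ∈ G m := by
      intro m
      have := hy (π.symm m)
      simpa using this
    have hx : ∀ l : Fin r, g l.castSucc ∈ A l := fun l => by rw [← hG1]; exact hg _
    have hv : g (Fin.last r) ∈ P := by rw [← hG2]; exact hg _
    have h := hE (fun l => g l.castSucc) hx _ hv
    have hsn : (Fin.snoc (fun l : Fin r => g l.castSucc) (g (Fin.last r)) : Fin (r + 1) → V) = g := by
      funext m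
      refine Fin.lastCases ?_ (fun a => ?_) m
      · rw [Fin.snoc_last]
      · rw [Fin.snoc_castSucc]
    rw [hsn] at h
    have hgy : g ∘ π = y := by
      funext m
      simp [g]
    rw [hgy] at h
    exact h
  · ext v
    rw [Finset.mem_union, Finset.mem_biUnion, Finset.mem_biUnion]
    constructor
    · rintro ⟨j, -, hj⟩
      have key : ∀ m : Fin (r + 1), v ∈ G m → v ∈ P ∨ ∃ a ∈ (Finset.univ : Finset (Fin r)), v ∈ A a := by
        intro m
        refine Fin.lastCases ?_ (fun a => ?_) m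
        · rw [hG2]; exact fun h => Or.inl h
        · rw [hG1]; exact fun h => Or.inr ⟨a, Finset.mem_univ _, h⟩
      exact key _ hj
    · rintro (h | ⟨a, -, h⟩)
      · refine ⟨π.symm (Fin.last r), Finset.mem_univ _, ?_⟩
        show v ∈ G (π (π.symm (Fin.last r)))
        rw [Equiv.apply_symm_apply, hG2]
        exact h
      · refine ⟨π.symm a.castSucc, Finset.mem_univ _, ?_⟩
        show v ∈ G (π (π.symm a.castSucc))
        rw [Equiv.apply_symm_apply, hG1]
        exact h

/-- Number of data. -/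
def N0 (r q t : ℕ) : ℕ :=
  (r + 1) * ((r + 1) * (2 ^ ((r + 1) * t) * (2 ^ ((r + 1) * t) *
    (q * (q * ((r + 1).factorial * (r + 1).factorial))))))

theorem core (erd : ErdStmt) (r q t s : ℕ) (η θ : ℝ) (hr : 0 < r) (hq : 0 < q) (hs : 0 < s)
    (hθ : 0 < θ) (hst : (s * q * (r + 1).factorial : ℝ) ≤ η * t) :
    ∃ n₀ : ℕ, ∀ (V : Type) [Fintype V] [DecidableEq V] (H : Finset (Finset V))
      (T : Fin q → Set (List V)), n₀ ≤ Fintype.card V →
      ∀ (B : Fin (r + 1) → Finset V) (U : Finset V), (∀ j, (B j).card = t) →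
        (∀ i j, i ≠ j → Disjoint (B i) (B j)) → (∀ j, Disjoint (B j) U) →
        θ * (Fintype.card V : ℝ) ^ r ≤
          ({f : Fin r → V | (∀ l, f l ∈ U) ∧ ∃ i j, i ≠ j ∧
            η * t ≤ ((gn H (r + 1) T f ∩ B i).card : ℝ) ∧
            η * t ≤ ((gn H (r + 1) T f ∩ B j).card : ℝ)}.ncard : ℝ) →
        ∃ (i j : Fin (r + 1)) (P P' W W' : Finset V) (C C' : Fin (r + 1) → Finset V), i ≠ j ∧
          P ⊆ B i ∧ P' ⊆ B j ∧ W ⊆ U ∧ W' ⊆ U ∧ Disjoint W W' ∧ P.card = s ∧ P'.card = s ∧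
          W.card = r * s ∧ W'.card = r * s ∧
          Block H (r + 1) T s C ∧ Block H (r + 1) T s C' ∧
          Finset.univ.biUnion C = P ∪ W ∧ Finset.univ.biUnion C' = P' ∪ W' := by
  classical
  have hN : 0 < N0 r q t := by
    unfold N0
    positivity
  have hρ : 0 < θ / N0 r q t := by positivity
  obtain ⟨n₀, hn₀⟩ := erd r (2 * s) (θ / N0 r q t) hr (by omega) hρ
  refine ⟨n₀, ?_⟩
  intro V _ _ H T hn B U hBc hBd hBU hE0
  set E₀ : Set (Fin r → V) := {f : Fin r → V | (∀ l, f l ∈ U) ∧ ∃ i j, i ≠ j ∧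
            η * t ≤ ((gn H (r + 1) T f ∩ B i).card : ℝ) ∧
            η * t ≤ ((gn H (r + 1) T f ∩ B j).card : ℝ)} with hE₀def
  let D := Fin (r + 1) × Fin (r + 1) × Finset V × Finset V × Fin q × Fin q ×
    Equiv.Perm (Fin (r + 1)) × Equiv.Perm (Fin (r + 1))
  let Pw : Finset (Finset V) := (Finset.univ.biUnion B).powerset
  let DD : Finset D := Finset.univ ×ˢ (Finset.univ ×ˢ (Pw ×ˢ (Pw ×ˢ (Finset.univ ×ˢ
    (Finset.univ ×ˢ (Finset.univ ×ˢ Finset.univ))))))
  have hPw : Pw.card = 2 ^ ((r + 1) * t) := by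
    show (Finset.univ.biUnion B).powerset.card = _
    rw [Finset.card_powerset, Finset.card_biUnion (fun i _ j _ hij => hBd i j hij),
      Finset.sum_congr rfl (fun j _ => hBc j), Finset.sum_const, Finset.card_univ, Fintype.card_fin,
      smul_eq_mul]
  have hDD : DD.card = N0 r q t := by
    show (Finset.univ ×ˢ (Finset.univ ×ˢ (Pw ×ˢ (Pw ×ˢ (Finset.univ ×ˢ
      (Finset.univ ×ˢ (Finset.univ ×ˢ Finset.univ))))))).card = _
    rw [Finset.card_product, Finset.card_product, Finset.card_product, Finset.card_product,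
      Finset.card_product, Finset.card_product, Finset.card_product, hPw, Finset.card_univ,
      Fintype.card_fin, Finset.card_univ, Fintype.card_fin, Finset.card_univ, Fintype.card_perm,
      Fintype.card_fin]
    rfl
  let R : (Fin r → V) → D → Prop := fun f d =>
    d.1 ≠ d.2.1 ∧ d.2.2.1 ⊆ B d.1 ∧ d.2.2.1.card = s ∧ d.2.2.2.1 ⊆ B d.2.1 ∧
      d.2.2.2.1.card = s ∧
      (∀ v ∈ d.2.2.1, EdgeIn H (r + 1) (T d.2.2.2.2.1)
        (List.ofFn ((Fin.snoc f v : Fin (r + 1) → V) ∘ d.2.2.2.2.2.2.1))) ∧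
      (∀ v ∈ d.2.2.2.1, EdgeIn H (r + 1) (T d.2.2.2.2.2.1)
        (List.ofFn ((Fin.snoc f v : Fin (r + 1) → V) ∘ d.2.2.2.2.2.2.2)))
  have hchoose : ∀ f ∈ E₀, ∃ d ∈ DD, R f d := by
    rintro f ⟨-, i, j, hij, hi, hj⟩
    have hcast : ∀ m : Fin (r + 1), η * t ≤ ((gn H (r + 1) T f ∩ B m).card : ℝ) →
        s * q * (r + 1).factorial ≤ (gn H (r + 1) T f ∩ B m).card := by
      intro m hm
      have : ((s * q * (r + 1).factorial : ℕ) : ℝ) ≤ ((gn H (r + 1) T f ∩ B m).card : ℝ) := by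
        push_cast
        exact hst.trans hm
      exact_mod_cast this
    have hord : ∀ m : Fin (r + 1), ∀ v ∈ gn H (r + 1) T f ∩ B m,
        OrdIn H (r + 1) T (insert v (Finset.univ.image f)) := by
      intro m v hv
      exact (mem_gn H (r + 1) T f v).1 (Finset.mem_inter.1 hv).1
    obtain ⟨P, c, π, hP1, hP2, hP3⟩ := exists_P H T f _ (hord i) hq (hcast i hi)
    obtain ⟨P', c', π', hP1', hP2', hP3'⟩ := exists_P H T f _ (hord j) hq (hcast j hj)
    have hPB : P ⊆ B i := fun v hv => (Finset.mem_inter.1 (hP1 hv)).2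
    have hPB' : P' ⊆ B j := fun v hv => (Finset.mem_inter.1 (hP1' hv)).2
    refine ⟨(i, j, P, P', c, c', π, π'), ?_, hij, hPB, hP2, hPB', hP2', hP3, hP3'⟩
    have hm1 : P ∈ Pw := Finset.mem_powerset.2 (hPB.trans
      (Finset.subset_biUnion_of_mem B (Finset.mem_univ i)))
    have hm2 : P' ∈ Pw := Finset.mem_powerset.2 (hPB'.trans
      (Finset.subset_biUnion_of_mem B (Finset.mem_univ j)))
    exact Finset.mem_product.2 ⟨Finset.mem_univ _, Finset.mem_product.2 ⟨Finset.mem_univ _,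
      Finset.mem_product.2 ⟨hm1, Finset.mem_product.2 ⟨hm2, Finset.mem_product.2
      ⟨Finset.mem_univ _, Finset.mem_product.2 ⟨Finset.mem_univ _, Finset.mem_product.2
      ⟨Finset.mem_univ _, Finset.mem_univ _⟩⟩⟩⟩⟩⟩⟩
  have hDne : DD.Nonempty := by
    rw [← Finset.card_pos, hDD]; exact hN
  obtain ⟨d₀, hd₀⟩ := hDne
  have hch2 : ∀ f : Fin r → V, ∃ d : D, f ∈ E₀ → d ∈ DD ∧ R f d := by
    intro f
    by_cases hf : f ∈ E₀
    · obtain ⟨d, h1, h2⟩ := hchoose f hf
      exact ⟨d, fun _ => ⟨h1, h2⟩⟩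
    · exact ⟨d₀, fun h => absurd h hf⟩
  choose φ hφ using hch2
  have hfin : E₀.Finite := Set.toFinite _
  have hE0' : θ * (Fintype.card V : ℝ) ^ r ≤ (hfin.toFinset.card : ℝ) := by
    rw [← Set.ncard_eq_toFinset_card E₀ hfin]; exact hE0
  have hpg : DD.card • (θ / N0 r q t * (Fintype.card V : ℝ) ^ r) ≤ (hfin.toFinset.card : ℝ) := by
    rw [hDD, nsmul_eq_mul]
    have : (N0 r q t : ℝ) ≠ 0 := by exact_mod_cast hN.ne'
    calc (N0 r q t : ℝ) * (θ / N0 r q t * (Fintype.card V : ℝ) ^ r)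
        = θ * (Fintype.card V : ℝ) ^ r := by field_simp
      _ ≤ _ := hE0'
  obtain ⟨d, -, hd⟩ := Finset.exists_le_card_fiber_of_nsmul_le_card_of_maps_to
    (f := φ) (fun f hf => (hφ f (hfin.mem_toFinset.1 hf)).1) ⟨d₀, hd₀⟩ hpg
  obtain ⟨A, hA1, hA2, hA3⟩ := hn₀ V hn
    ((hfin.toFinset.filter fun f => φ f = d : Finset (Fin r → V)) : Set (Fin r → V)) (by
      rw [Set.ncard_coe_finset]; exact hd)
  have hA3' : ∀ x : Fin r → V, (∀ i, x i ∈ A i) → x ∈ E₀ ∧ R x d := by
    intro x hx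
    have h := hA3 x hx
    rw [Finset.mem_coe, Finset.mem_filter] at h
    have h1 := hfin.mem_toFinset.1 h.1
    have h2 := (hφ x h1).2
    rw [h.2] at h2
    exact ⟨h1, h2⟩
  have hAne : ∀ l, (A l).Nonempty := fun l => by
    rw [← Finset.card_pos, hA1]; omega
  choose a ha using hAne
  have hRd : R a d := (hA3' a ha).2
  obtain ⟨e1, e2, e3, e4, e5, -, -⟩ := hRd
  have hAU : ∀ l, A l ⊆ U := by
    intro l v hv
    have h := (hA3' (Function.update a l v) (fun i => by
      by_cases hi : i = l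
      · subst hi; rw [Function.update_self]; exact hv
      · rw [Function.update_of_ne hi]; exact ha i)).1
    have h2 := h.1 l
    rw [Function.update_self] at h2
    exact h2
  have hsplit : ∀ l, ∃ A1 : Finset V, A1 ⊆ A l ∧ A1.card = s := fun l =>
    Finset.exists_subset_card_eq (by rw [hA1]; omega)
  choose A1 hA1s hA1c using hsplit
  let A2 : Fin r → Finset V := fun l => A l \ A1 l
  have hA2s : ∀ l, A2 l ⊆ A l := fun l => Finset.sdiff_subset
  have hA2c : ∀ l, (A2 l).card = s := by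
    intro l
    show (A l \ A1 l).card = s
    rw [Finset.card_sdiff_of_subset (hA1s l), hA1, hA1c]; omega
  have hd1 : ∀ i j, i ≠ j → Disjoint (A1 i) (A1 j) := fun i j hij =>
    Finset.disjoint_of_subset_left (hA1s i) (Finset.disjoint_of_subset_right (hA1s j) (hA2 i j hij))
  have hd2 : ∀ i j, i ≠ j → Disjoint (A2 i) (A2 j) := fun i j hij =>
    Finset.disjoint_of_subset_left (hA2s i) (Finset.disjoint_of_subset_right (hA2s j) (hA2 i j hij))
  have hUP : ∀ l, Disjoint (A1 l) d.2.2.1 := fun l =>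
    Finset.disjoint_of_subset_left ((hA1s l).trans (hAU l))
      (Finset.disjoint_of_subset_right e2 (hBU _).symm)
  have hUP' : ∀ l, Disjoint (A2 l) d.2.2.2.1 := fun l =>
    Finset.disjoint_of_subset_left ((hA2s l).trans (hAU l))
      (Finset.disjoint_of_subset_right e4 (hBU _).symm)
  obtain ⟨C, hC1, hC2⟩ := block_of H T A1 d.2.2.1 d.2.2.2.2.1 d.2.2.2.2.2.2.1 hA1c e3 hd1 hUP
    (fun x hx v hv => (hA3' x fun l => hA1s l (hx l)).2.2.2.2.2.2.1 v hv)
  obtain ⟨C', hC1', hC2'⟩ := block_of H T A2 d.2.2.2.1 d.2.2.2.2.2.1 d.2.2.2.2.2.2.2 hA2c e5 hd2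
    hUP' (fun x hx v hv => (hA3' x fun l => hA2s l (hx l)).2.2.2.2.2.2.2 v hv)
  refine ⟨d.1, d.2.1, d.2.2.1, d.2.2.2.1, Finset.univ.biUnion A1, Finset.univ.biUnion A2, C, C', e1,
    e2, e4, ?_, ?_, ?_, e3, e5, ?_, ?_, hC1, hC1', hC2, hC2'⟩
  · exact Finset.biUnion_subset.2 fun l _ => (hA1s l).trans (hAU l)
  · exact Finset.biUnion_subset.2 fun l _ => (hA2s l).trans (hAU l)
  · rw [Finset.disjoint_biUnion_left]
    intro i _
    rw [Finset.disjoint_biUnion_right]
    intro j _
    by_cases hij : i = j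
    · subst hij
      exact Finset.disjoint_sdiff
    · exact Finset.disjoint_of_subset_left (hA1s i)
        (Finset.disjoint_of_subset_right (hA2s j) (hA2 i j hij))
  · rw [Finset.card_biUnion (fun i _ j _ hij => hd1 i j hij),
      Finset.sum_congr rfl (fun j _ => hA1c j), Finset.sum_const, Finset.card_univ,
      Fintype.card_fin, smul_eq_mul]
  · rw [Finset.card_biUnion (fun i _ j _ hij => hd2 i j hij),
      Finset.sum_congr rfl (fun j _ => hA2c j), Finset.sum_const, Finset.card_univ,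
      Fintype.card_fin, smul_eq_mul]

/-- COA. -/
theorem coa (erd : ErdStmt) : CoaStmt := by
  intro k q t s η θ hk hq hs hθ hst
  obtain ⟨r, rfl⟩ : ∃ r, k = r + 1 := ⟨k - 1, by omega⟩
  obtain ⟨n₀, h⟩ := core erd r q t s η θ (by omega) hq hs hθ hst
  refine ⟨n₀, ?_⟩
  intro V _ _ H T hn _ _ B U h1 h2 h3 h4
  exact h V H T hn B U h1 h2 h3 h4

end Pool.Agent.KK.H91
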